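import Mathlib
import Pool.Agent.P.MP_70ee84_co.Main

open Real EuclideanGeometry

namespace Pool.Agent.Results.MP_70ee84_co.Dissections

theorem result (t : Fin 3 → ℂ) (ht : AffineIndependent ℝ t)
    (hnr : ∀ i j k, i ≠ j → j ≠ k → i ≠ k → ∠ (t i) (t j) (t k) ≠ π / 2) (S : Fin 5 → Set ℂ) :
    ((∀ m, ∃ v : Fin 3 → ℂ, Similar v t ∧ S m = convexHull ℝ (Set.range v)) ∧
      (Pairwise fun m m' => Disjoint (interior (S m)) (interior (S m'))) ∧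
      ⋃ m, S m = convexHull ℝ (Set.range t)) ↔
    ∃ (σ : Equiv.Perm (Fin 3)) (A B C P Q W : ℂ), t ∘ σ = ![A, B, C] ∧
      ∠ C A B = π / 6 ∧ ∠ A B C = π / 6 ∧ ∠ B C A = 2 * π / 3 ∧
      P = (2 * A + B) / 3 ∧ Q = (A + 2 * B) / 3 ∧ W = (A + B + C) / 3 ∧
      ∃ e : Equiv.Perm (Fin 5), S ∘ e = ![convexHull ℝ {A, P, C}, convexHull ℝ {B, Q, C},
        convexHull ℝ {P, Q, W}, convexHull ℝ {Q, C, W}, convexHull ℝ {C, P, W}] :=
  ⟨fun h => Pool.Agent.P.MP_70ee84_co.forward ht hnr h.1 h.2.1 h.2.2,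
    Pool.Agent.P.MP_70ee84_co.backward ht⟩

end Pool.Agent.Results.MP_70ee84_co.Dissections
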